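import Pool.Agent.H637R2.TD.Defs

/-!
# Auxiliary definitions
-/

open Set Filter Topology MeasureTheory

namespace Pool.Agent.H637R2.TD

open Pool.Agent.H728R2.OS

/-- There are finitely many periodic points and every asymptotic pseudo-orbit is asymptotic to the
orbit of one of them. -/
def Conv {X : Type*} [MetricSpace X] (f : X → X) : Prop :=
  {x | ∃ n, 0 < n ∧ f^[n] x = x}.Finite ∧
  ∀ x : ℕ → X, Tendsto (fun n => dist (f (x n)) (x (n + 1))) atTop (𝓝 0) →
    ∃ p n, 0 < n ∧ f^[n] p = p ∧ Tendsto (fun k => dist (x k) (f^[k] p)) atTop (𝓝 0)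

/-- `H(y) - y - m` takes both signs. -/
def SignChange (H : ℝ → ℝ) (m : ℝ) : Prop := (∃ a, a + m < H a) ∧ ∃ b, H b < b + m

/-- A circle extension with lifts of the fibre maps. -/
structure FiberSys (X : Type*) [MetricSpace X] where
  T : X → X
  g : X × Circ → Circ
  G : X → ℝ → ℝ
  cont_T : Continuous T
  cont_g : Continuous g
  lift : ∀ x y, ((G x y : ℝ) : UnitAddCircle) = g (x, (y : UnitAddCircle))
  mono : ∀ x, StrictMono (G x)
  cont : ∀ x, Continuous (G x)
  deg : ∀ x y, G x (y + 1) = G x y + 1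

namespace FiberSys

variable {X : Type*} [MetricSpace X] (S : FiberSys X)

/-- The skew product map. -/
def map (z : X × Circ) : X × Circ := (S.T z.1, S.g z)

/-- The iterates of the lifts of the fibre maps. -/
def it (x : X) : ℕ → ℝ → ℝ
  | 0, y => y
  | n + 1, y => S.G (S.T^[n] x) (it x n y)

theorem cont_map : Continuous S.map := (S.cont_T.comp continuous_fst).prodMk S.cont_g

theorem it_succ (x : X) (n : ℕ) (y : ℝ) : S.it x (n + 1) y = S.G (S.T^[n] x) (S.it x n y) := rfl

theorem it_add (x : X) (m n : ℕ) (y : ℝ) :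
    S.it x (m + n) y = S.it (S.T^[m] x) n (S.it x m y) := by
  induction n with
  | zero => rfl
  | succ n ih =>
    rw [← add_assoc, it_succ, it_succ, ih, ← Function.iterate_add_apply, add_comm n m]

theorem map_iterate (x : X) (n : ℕ) (y : ℝ) :
    S.map^[n] (x, (y : UnitAddCircle)) = (S.T^[n] x, ((S.it x n y : ℝ) : UnitAddCircle)) := by
  induction n with
  | zero => rfl
  | succ n ih =>
    rw [Function.iterate_succ_apply', ih, Function.iterate_succ_apply', it_succ, S.lift]
    rfl

theorem it_mono (x : X) (n : ℕ) : StrictMono (S.it x n) := by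
  induction n with
  | zero => exact strictMono_id
  | succ n ih => exact (S.mono _).comp ih

theorem it_cont (x : X) (n : ℕ) : Continuous (S.it x n) := by
  induction n with
  | zero => exact continuous_id
  | succ n ih => exact (S.cont _).comp ih

theorem it_deg (x : X) (n : ℕ) (y : ℝ) : S.it x n (y + 1) = S.it x n y + 1 := by
  induction n with
  | zero => rfl
  | succ n ih => rw [it_succ, ih, S.deg, it_succ]

end FiberSys

/-- Composition of the maps `g 0, …, g (n-1)`, each followed by `Φ`. -/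
def itr (Φ : ℝ → ℝ) (g : ℕ → ℝ → ℝ) : ℕ → ℝ → ℝ
  | 0, y => y
  | n + 1, y => Φ (g n (itr Φ g n y))

/-- `g` is a periodic sequence of (lifts of) circle diffeomorphisms. -/
structure IsCycle (g : ℕ → ℝ → ℝ) (N : ℕ) : Prop where
  pos : 0 < N
  per : ∀ i, g (i + N) = g i
  diff : ∀ i, Differentiable ℝ (g i)
  dpos : ∀ i y, 0 < deriv (g i) y
  deg : ∀ i y, g i (y + 1) = g i y + 1

/-- `u` is a smooth `1`-periodic function whose derivatives up to order `k` are less than `η`. -/
structure Small (k : ℕ) (η : ℝ) (u : ℝ → ℝ) : Prop where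
  smooth : ContDiff ℝ (⊤ : ℕ∞) u
  per : ∀ y, u (y + 1) = u y
  lt : ∀ j ≤ k, ∀ y, |iteratedDeriv j u y| < η

/-- A smooth map `U : ℝ^d → ℝ^d` whose derivatives up to order `k` are less than `η`. -/
structure SmallMap {d : ℕ} (k : ℕ) (η : ℝ) (U : (Fin d → ℝ) → (Fin d → ℝ)) : Prop where
  smooth : ContDiff ℝ (⊤ : ℕ∞) U
  lt : ∀ j ≤ k, ∀ z, ‖iteratedFDeriv ℝ j U z‖ < η

/-- The lift of a product of circle diffeomorphisms. -/
def prodLift {d : ℕ} (u : Fin d → ℝ → ℝ) (z : Fin d → ℝ) : Fin d → ℝ := fun i => z i + u i (z i)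

theorem toTorus_surj {d : ℕ} : Function.Surjective (toTorus (d := d)) := by
  intro x
  choose z hz using fun i => QuotientAddGroup.mk_surjective (x i)
  exact ⟨z, funext hz⟩

/-- A point of `ℝ^d` above a point of the torus. -/
noncomputable def rep {d : ℕ} : Torus d → Fin d → ℝ := Function.surjInv toTorus_surj

theorem toTorus_rep {d : ℕ} (x : Torus d) : toTorus (rep x) = x :=
  Function.surjInv_eq toTorus_surj x

/-- `𝕋^(d+1) = 𝕋^d × 𝕋`: the coordinates `1, …, d` and the coordinate `0`. -/
def split (d : ℕ) : Torus (d + 1) ≃ₜ Torus d × Circ where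
  toFun x := (Fin.tail x, x 0)
  invFun z := Fin.cons z.2 z.1
  left_inv x := Fin.cons_self_tail x
  right_inv z := by simp [Fin.tail_cons]
  continuous_toFun := by
    refine Continuous.prodMk ?_ (continuous_apply 0)
    exact continuous_pi fun i => continuous_apply i.succ
  continuous_invFun := by
    refine continuous_pi fun i => ?_
    refine Fin.cases ?_ (fun j => ?_) i
    · simpa using continuous_snd
    · simp only [Fin.cons_succ]
      exact (continuous_apply j).comp continuous_fst

/-- The same decomposition for the covering space. -/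
def splitR (d : ℕ) (z : Fin (d + 1) → ℝ) : (Fin d → ℝ) × ℝ := (Fin.tail z, z 0)

/-- A homeomorphism of `𝕋^(d+1)` read in `𝕋^d × 𝕋`. -/
def conjSplit {d : ℕ} (f : Torus (d + 1) ≃ₜ Torus (d + 1)) :
    (Torus d × Circ) ≃ₜ (Torus d × Circ) :=
  (split d).symm.trans (f.trans (split d))

theorem conjSplit_apply {d : ℕ} (f : Torus (d + 1) ≃ₜ Torus (d + 1)) (x : Torus (d + 1)) :
    conjSplit f (split d x) = split d (f x) := by
  simp [conjSplit]

/-- Perturbations fixing `Q` do not destroy `Q`: every closed forward invariant set of a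
perturbation of `T` fixing `Q` meets `Q`. -/
def Rigid {d : ℕ} (k : ℕ) (η : ℝ) (T : Torus d ≃ₜ Torus d) (Q : Set (Torus d)) : Prop :=
  ∀ (Θ : Torus d ≃ₜ Torus d) (U : (Fin d → ℝ) → (Fin d → ℝ)), IsFlagDiffeo ⊤ Θ →
    SmallMap k η U → IsLift toTorus (fun z => z + U z) Θ → (∀ q ∈ Q, Θ q = q) →
    ∀ K : Set (Torus d), IsClosed K → K.Nonempty → MapsTo (fun x => Θ (T x)) K K →
      (K ∩ Q).Nonempty

end Pool.Agent.H637R2.TD
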