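import Pool.Agent.H728R2.OS.Defs

/-!
# Diffeomorphisms of the torus preserving the standard flag of foliations: definitions

The notions of `Pool.Agent.H728R2.OS.Defs` (torus, lifts, `C^r` diffeomorphisms, `C^k` closeness,
nonwandering set, hyperbolicity, Axiom A, `Ω`-stability) are used throughout.
-/

open Set Filter Topology MeasureTheory

namespace Pool.Agent.H637R2.TD

open Pool.Agent.H728R2.OS

/-- `f` is a `C^r` diffeomorphism of `𝕋^d` preserving the standard flag of foliations by subtori:
for every `k` two points have the same coordinates `x_k, …, x_{d-1}` if and only if their images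
have, so that `f` is triangular, `f(x)_k = f_k(x_k, …, x_{d-1})`. Moreover every
`f_k(·, x_{k+1}, …, x_{d-1})` preserves the orientation of the circle: some lift of `f` is strictly
increasing in the corresponding variables. -/
structure IsFlagDiffeo {d : ℕ} (r : ℕ∞) (f : Torus d ≃ₜ Torus d) : Prop where
  diffeo : IsDiffeo toTorus r f
  flag : ∀ (k : Fin d) (x y : Torus d),
    (∀ j, k ≤ j → x j = y j) ↔ ∀ j, k ≤ j → f x j = f y j
  orient : ∃ F : (Fin d → ℝ) → (Fin d → ℝ), Continuous F ∧ IsLift toTorus F f ∧
    ∀ (z : Fin d → ℝ) (k : Fin d) (t : ℝ), 0 < t → F z k < F (z + Pi.single k t) k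

/-- The `ω`-limit set of the forward orbit of `p`. -/
def omegaLim {X : Type*} [TopologicalSpace X] (f : X → X) (p : X) : Set X :=
  {y | MapClusterPt y atTop fun n : ℕ => f^[n] p}

/-- The basin of `Λ`: the points whose `ω`-limit set is contained in `Λ`. -/
def basin {X : Type*} [TopologicalSpace X] (f : X → X) (Λ : Set X) : Set X :=
  {p | omegaLim f p ⊆ Λ}

/-- `Λ` is an attractor of `f`: it is invariant, it contains a point whose forward orbit is dense
in `Λ`, and its basin has positive Lebesgue measure. -/
structure IsAttractor {d : ℕ} (f : Torus d ≃ₜ Torus d) (Λ : Set (Torus d)) : Prop where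
  invariant : f '' Λ = Λ
  transitive : ∃ x ∈ Λ, Λ ⊆ closure (range fun n : ℕ => f^[n] x)
  basin_pos : 0 < volume (basin f Λ)

/-- `f` has finitely many attractors covering `𝕋^d`: the union of the basins of finitely many
attractors has full Lebesgue measure. -/
def FinitelyManyAttractors {d : ℕ} (f : Torus d ≃ₜ Torus d) : Prop :=
  ∃ (n : ℕ) (Λ : Fin n → Set (Torus d)), (∀ i, IsAttractor f (Λ i)) ∧
    volume (⋃ i, basin f (Λ i))ᶜ = 0

end Pool.Agent.H637R2.TD
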