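import Pool.Agent.H637R2.TD.Stubs
import Pool.Agent.H728R2.OS.S.CRGEN
import Pool.Agent.H728R2.OS.S.NOCYC
import Pool.Agent.H728R2.OS.S.COV

/-!
# Flag preserving diffeomorphisms of the torus: assembly
-/

open Set Filter Topology MeasureTheory

namespace Pool.Agent.H637R2.TD

open Pool.Agent.H728R2.OS

theorem exists_int {a b : ℝ} (h : (a : UnitAddCircle) = (b : UnitAddCircle)) :
    ∃ n : ℤ, a = b + n := by
  have h1 : ((a - b : ℝ) : UnitAddCircle) = 0 := by rw [AddCircle.coe_sub, h, sub_self]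
  obtain ⟨n, hn⟩ := (AddCircle.coe_eq_zero_iff (1 : ℝ)).1 h1
  refine ⟨n, ?_⟩
  rw [zsmul_one] at hn
  linarith

theorem coe_add_int (a : ℝ) (n : ℤ) : ((a + n : ℝ) : UnitAddCircle) = (a : UnitAddCircle) := by
  rw [AddCircle.coe_add]
  have : ((n : ℝ) : UnitAddCircle) = 0 := by
    rw [AddCircle.coe_eq_zero_iff]
    exact ⟨n, by simp⟩
  rw [this, add_zero]

/-- The chain rule along the orbit. -/
theorem deriv_it {X : Type*} [MetricSpace X] (S : FiberSys X) (w : X × Circ → ℝ)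
    (hd : ∀ x, Differentiable ℝ (S.G x))
    (hw : ∀ x (y : ℝ), deriv (S.G x) y = w (x, (y : UnitAddCircle))) (x : X) (n : ℕ) :
    Differentiable ℝ (S.it x n) ∧ ∀ y : ℝ, deriv (S.it x n) y =
      ∏ i ∈ Finset.range n, w (S.map^[i] (x, (y : UnitAddCircle))) := by
  induction n with
  | zero =>
    refine ⟨differentiable_id, fun y => ?_⟩
    simp only [Finset.range_zero, Finset.prod_empty]
    exact (hasDerivAt_id y).deriv
  | succ n ih =>
    refine ⟨(hd _).comp ih.1, fun y => ?_⟩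
    have h : deriv (S.it x (n + 1)) y =
        deriv (S.G (S.T^[n] x)) (S.it x n y) * deriv (S.it x n) y :=
      deriv_comp y ((hd _) _) (ih.1 y)
    rw [h, ih.2, Finset.prod_range_succ, hw, S.map_iterate, mul_comm]

/-- `Conv` and hyperbolicity of the periodic points give everything. -/
theorem all_of_conv {d : ℕ} (f : Torus d ≃ₜ Torus d) (hc : Conv f)
    (hh : IsHyperbolic toTorus f (Per f)) :
    (ChainRec f).Finite ∧ ChainHyp toTorus f ∧ AxiomA toTorus f ∧ NoCycle f ∧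
      Omega f = Per f ∧ (Omega f).Finite := by
  have h1 : ChainRec f ⊆ Per f := chainRec_of_conv f hc
  have h2 : Per f ⊆ Omega f := per_subset_omega f
  have h3 : Omega f ⊆ ChainRec f := omega_subset_chainRec f
  have e1 : Omega f = Per f := Subset.antisymm (h3.trans h1) h2
  have e2 : ChainRec f = Per f := Subset.antisymm h1 (h2.trans h3)
  have hfin : (Per f).Finite := hc.1
  refine ⟨e2 ▸ hfin, ⟨e2 ▸ hh, e2 ▸ subset_closure⟩, ⟨e1 ▸ hh, e1 ▸ subset_closure⟩, ?_, e1,
    e1 ▸ hfin⟩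
  exact noCycle_of_chainRec f (by rw [e1, e2])

/-- The step for a fixed diffeomorphism: simple fibre return maps. -/
theorem step_of_simple {d : ℕ} {r : ℕ∞} (hr : 1 ≤ r) (f : Torus (d + 1) ≃ₜ Torus (d + 1))
    (hf : IsFlagDiffeo r f) (T : Torus d ≃ₜ Torus d) (hT : ∀ z, (conjSplit f z).1 = T z.1)
    (hTc : Conv T) (hTh : IsHyperbolic toTorus T (Per T))
    (S : FiberSys (Torus d)) (w : Torus d × Circ → ℝ) (hST : S.T = T) (hSf : S.map = conjSplit f)
    (hw0 : ∀ z, 0 < w z) (hSd : ∀ x, Differentiable ℝ (S.G x))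
    (hSw : ∀ x (y : ℝ), deriv (S.G x) y = w (x, (y : UnitAddCircle)))
    (hw : ∀ F' : (Fin d → ℝ) × ℝ → (Fin d → ℝ) × ℝ, ContDiff ℝ 1 F' →
      IsLift toTorus1 F' (conjSplit f) →
        ∀ z, fderiv ℝ F' z ((0 : Fin d → ℝ), (1 : ℝ)) = (0, w (toTorus1 z)))
    (h : ∀ x n, 0 < n → T^[n] x = x → ∃ (N : ℕ) (m : ℤ), 0 < N ∧ T^[N] x = x ∧
      (∃ z, S.it x N z = z + m) ∧ ∀ z, S.it x N z = z + m → deriv (S.it x N) z ≠ 1) :
    Conv f ∧ IsHyperbolic toTorus f (Per f) := by
  have h' : ∀ x n, 0 < n → S.T^[n] x = x → ∃ (N : ℕ) (m : ℤ), 0 < N ∧ S.T^[N] x = x ∧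
      SignChange (S.it x N) m ∧ {y | y ∈ Icc (0 : ℝ) 1 ∧ S.it x N y = y + m}.Finite := by
    intro x n hn hx
    rw [hST] at hx
    obtain ⟨N, m, hN, hNx, ⟨z, hz⟩, hs⟩ := h x n hn hx
    obtain ⟨h1, h2⟩ := finite_of_simple (S.it x N) (deriv_it S w hSd hSw x N).1 m z hz hs
    exact ⟨N, m, hN, by rw [hST]; exact hNx, h1, h2⟩
  have hconv : Conv S.map := conv_skew S (by rw [hST]; exact hTc) h'
  rw [hSf] at hconv
  refine ⟨conv_of_conjSplit f hconv, isHyperbolic_of_conjSplit f (Per f) ?_⟩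
  rw [← per_conjSplit]
  refine hyp_step hr T (conjSplit f) (isDiffeo_conjSplit f hf.diffeo) hT hTh w hw0 hw
    hconv.1 ?_
  rintro ⟨x, c⟩ ⟨n, hn, hz⟩
  obtain ⟨y, rfl⟩ := QuotientAddGroup.mk_surjective c
  have hx : S.T^[n] x = x := by
    have := congrArg Prod.fst hz
    rw [← hSf] at this
    have e := S.map_iterate x n y
    rw [show S.map^[n] (x, (QuotientAddGroup.mk y : Circ)) =
      (S.T^[n] x, ((S.it x n y : ℝ) : UnitAddCircle)) from e] at this
    exact this
  obtain ⟨N, m, hN, hNx, ⟨z, hz'⟩, hs⟩ := h x n hn (by rw [← hST]; exact hx)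
  obtain ⟨h1, -⟩ := finite_of_simple (S.it x N) (deriv_it S w hSd hSw x N).1 m z hz' hs
  have hy : S.it x N y = y + m := by
    refine per_of_fiber S x N hN (by rw [hST]; exact hNx) m h1 y n hn ?_
    rw [hSf]
    exact hz
  refine ⟨N, hN, ?_, ?_⟩
  · rw [← hSf]
    have e := S.map_iterate x N y
    rw [hy, hST, hNx, coe_add_int] at e
    exact e
  · have := hs y hy
    rw [(deriv_it S w hSd hSw x N).2 y, hSf] at this
    exact this

theorem small_mono {k k' : ℕ} {η η' : ℝ} {u : ℝ → ℝ} (h : Small k η u) (hk : k' ≤ k)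
    (hη : η ≤ η') : Small k' η' u :=
  ⟨h.smooth, h.per, fun j hj y => (h.lt j (hj.trans hk) y).trans_le hη⟩

theorem conv_zero (f : Torus 0 ≃ₜ Torus 0) : Conv f := by
  refine ⟨Set.toFinite _, fun x _ => ⟨x 0, 1, one_pos, Subsingleton.elim _ _, ?_⟩⟩
  have : (fun k => dist (x k) (f^[k] (x 0))) = fun _ => (0 : ℝ) := by
    funext k
    rw [Subsingleton.elim (x k) (f^[k] (x 0)), dist_self]
  rw [this]
  exact tendsto_const_nhds

theorem hyp_zero (f : Torus 0 ≃ₜ Torus 0) (S : Set (Torus 0)) : IsHyperbolic toTorus f S := by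
  refine ⟨id, id, contDiff_id, contDiff_id, fun z => Subsingleton.elim _ _,
    fun z => Subsingleton.elim _ _, fun _ => 0, 1, 1 / 2, one_pos, by norm_num, by norm_num,
    continuousOn_const, fun x _ => by ext v i; exact i.elim0,
    fun z _ => by ext v i; exact i.elim0, ?_⟩
  intro m z _ v
  have h1 : ∀ w : Fin 0 → ℝ, ‖w‖ = 0 := fun w => by
    rw [Subsingleton.elim w 0, norm_zero]
  rw [h1, h1, h1, h1]
  exact ⟨by simp, by simp⟩

/-- The value of a product diffeomorphism. -/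
theorem prod_apply {d : ℕ} {u : Fin d → ℝ → ℝ} {Ψ : Torus d ≃ₜ Torus d}
    (h : IsLift toTorus (prodLift u) Ψ) (z : Fin d → ℝ) (i : Fin d) :
    Ψ (toTorus z) i = ((z i + u i (z i) : ℝ) : UnitAddCircle) := by
  rw [← h z]
  rfl

/-- Density: composing with a product of circle diffeomorphisms close to the identity. -/
theorem density {r : ℕ∞} (hr : 1 ≤ r) : ∀ (d : ℕ) (f : Torus d ≃ₜ Torus d), IsFlagDiffeo r f →
    ∀ (k : ℕ) (η : ℝ), 0 < η → ∃ (u : Fin d → ℝ → ℝ) (Ψ : Torus d ≃ₜ Torus d),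
      (∀ i, Small k η (u i)) ∧ IsLift toTorus (prodLift u) Ψ ∧ IsFlagDiffeo ⊤ Ψ ∧
      Conv (f.trans Ψ) ∧ IsHyperbolic toTorus (f.trans Ψ) (Per (f.trans Ψ)) := by
  intro d
  induction d with
  | zero =>
    intro f hf k η hη
    obtain ⟨Ψ, h1, h2⟩ := exists_prod (d := 0) (fun _ _ => 0) (fun i => i.elim0)
    exact ⟨fun _ _ => 0, Ψ, fun i => i.elim0, h1, h2, conv_zero _, hyp_zero _ _⟩
  | succ d ih =>
    intro f hf k η hη
    obtain ⟨T, hTf, hT⟩ := exists_base f hf
    set k' := max k 1 with hk'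
    set η' := min η 1 with hη'
    have hη0 : 0 < η' := lt_min hη one_pos
    obtain ⟨u', Ψ', hu', hl', hΨ', hc', hh'⟩ := ih T hTf k' η' hη0
    set T₁ : Torus d ≃ₜ Torus d := T.trans Ψ' with hT₁
    have hcast : ∀ v, Small k' η' v → Small 1 1 v := fun v hv =>
      small_mono hv (le_max_right _ _) (min_le_right _ _)
    have hzero : Small k' η' (fun _ => 0) := by
      refine ⟨contDiff_const, fun _ => rfl, fun j _ y => ?_⟩
      have : iteratedDeriv j (fun _ : ℝ => (0 : ℝ)) y = 0 := by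
        rw [iteratedDeriv_const]; split_ifs <;> rfl
      rw [this, abs_zero]
      exact hη0
    -- perturbation of the base only
    set u₀ : Fin (d + 1) → ℝ → ℝ := Fin.cons (fun _ => 0) u' with hu₀
    have hu₀s : ∀ i, Small k' η' (u₀ i) := by
      intro i
      refine Fin.cases ?_ (fun j => ?_) i
      · simpa [hu₀] using hzero
      · simpa [hu₀] using hu' j
    obtain ⟨Ψ₀, hl₀, hΨ₀⟩ := exists_prod u₀ fun i => hcast _ (hu₀s i)
    have hf₁ : IsFlagDiffeo r (f.trans Ψ₀) := hf.comp (hΨ₀.of_le le_top)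
    -- the base of a product perturbation
    have hbase : ∀ (v : ℝ → ℝ) (Ψ : Torus (d + 1) ≃ₜ Torus (d + 1)),
        IsLift toTorus (prodLift (Fin.cons v u')) Ψ → ∀ z, (conjSplit (f.trans Ψ) z).1 = T₁ z.1 := by
      intro v Ψ hΨ z
      obtain ⟨x, rfl⟩ := (split d).surjective z
      rw [conjSplit_apply]
      obtain ⟨a, ha⟩ := toTorus_surj (f x)
      have h1 : (split d ((f.trans Ψ) x)).1 = fun i : Fin d => Ψ (toTorus a) i.succ := by
        rw [ha]; rfl
      have h2 : T₁ (split d x).1 = Ψ' (fun i : Fin d => f x i.succ) := by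
        rw [hT x]; rfl
      have h3 : (fun i : Fin d => f x i.succ) = toTorus (fun i : Fin d => a i.succ) := by
        rw [← ha]; rfl
      rw [h1, h2, h3]
      funext i
      rw [prod_apply hΨ, prod_apply hl']
      simp
    obtain ⟨F₁, hF₁, lF₁, mF₁⟩ := exists_lift (f.trans Ψ₀) hf₁
    have hF₁' : ContDiff ℝ 1 F₁ := hF₁.of_le (by exact_mod_cast hr)
    obtain ⟨S₁, w₁, hS₁T, hS₁f, hS₁G, hw₁0, hS₁d, hS₁w, -⟩ := exists_fiberSys hr T₁
      (conjSplit (f.trans Ψ₀)) (isDiffeo_conjSplit _ hf₁.diffeo) (hbase _ Ψ₀ hl₀) F₁ hF₁' lF₁ mF₁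
    -- periods of the periodic points of the base
    have hfin : (Per T₁).Finite := hc'.1
    haveI : Fintype (Per T₁) := hfin.fintype
    choose N hN using fun p : Per T₁ => p.2
    have hcyc : ∀ p : Per T₁, IsCycle (fun i => S₁.G (T₁^[i] p)) (N p) := by
      intro p
      refine ⟨(hN p).1, fun i => ?_, fun i => hS₁d _, fun i y => ?_, fun i y => S₁.deg _ y⟩
      · rw [Function.iterate_add_apply, (hN p).2]
      · rw [hS₁w]
        exact hw₁0 _
    obtain ⟨u, hu, hu1, hcy⟩ := exists_perturb _ _ hcyc k' η' hη0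
    have hus : ∀ i, Small k' η' ((Fin.cons u u' : Fin (d + 1) → ℝ → ℝ) i) := by
      intro i
      refine Fin.cases ?_ (fun j => ?_) i
      · simpa using hu
      · simpa using hu' j
    obtain ⟨Ψ, hl, hΨ⟩ := exists_prod (Fin.cons u u' : Fin (d + 1) → ℝ → ℝ)
      fun i => hcast _ (hus i)
    have hf₂ : IsFlagDiffeo r (f.trans Ψ) := hf.comp (hΨ.of_le le_top)
    refine ⟨Fin.cons u u', Ψ, fun i => small_mono (hus i) (le_max_left _ _) (min_le_left _ _), hl,
      hΨ, ?_⟩
    have huint : ∀ (y : ℝ) (n : ℤ), u (y + n) = u y := by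
      intro y n
      have hp : Function.Periodic u 1 := hu.per
      have := hp.int_mul n y
      simpa using this
    have hud : Differentiable ℝ u := hu.smooth.differentiable (by simp)
    have hΦ : StrictMono fun y => y + u y := by
      refine strictMono_of_deriv_pos fun y => ?_
      have : deriv (fun y => y + u y) y = 1 + deriv u y := by
        rw [deriv_fun_add differentiableAt_fun_id (hud y), deriv_id'']
      rw [this]
      linarith [hu1 y]
    -- the lift of the perturbed map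
    set F₂ : (Fin d → ℝ) × ℝ → (Fin d → ℝ) × ℝ := fun z => ((F₁ z).1, (F₁ z).2 + u (F₁ z).2)
      with hF₂
    have hF₂c : ContDiff ℝ 1 F₂ := by
      refine (hF₁'.fst).prodMk ((hF₁'.snd).add ?_)
      exact (hu.smooth.of_le (by simp)).comp hF₁'.snd
    have lF₂ : IsLift toTorus1 F₂ (conjSplit (f.trans Ψ)) := by
      intro z
      have h0 := lF₁ z
      obtain ⟨x, hx⟩ := (split d).surjective (toTorus1 z)
      rw [← hx, conjSplit_apply] at h0 ⊢
      obtain ⟨a, ha⟩ := toTorus_surj (f x)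
      have e0 : (f.trans Ψ₀) x = Ψ₀ (toTorus a) := by rw [ha]; rfl
      have e1 : (f.trans Ψ) x = Ψ (toTorus a) := by rw [ha]; rfl
      rw [e0] at h0
      rw [e1]
      have g1 : (toTorus (F₁ z).1 : Torus d) = (split d (Ψ₀ (toTorus a))).1 := congrArg Prod.fst h0
      have g2 : (((F₁ z).2 : ℝ) : UnitAddCircle) = (split d (Ψ₀ (toTorus a))).2 :=
        congrArg Prod.snd h0
      have g3 : (split d (Ψ₀ (toTorus a))).2 = ((a 0 : ℝ) : UnitAddCircle) := by
        show Ψ₀ (toTorus a) 0 = _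
        rw [prod_apply hl₀]
        simp [hu₀]
      rw [g3] at g2
      obtain ⟨n, hn⟩ := exists_int g2
      refine Prod.ext ?_ ?_
      · show (toTorus (F₁ z).1 : Torus d) = (split d (Ψ (toTorus a))).1
        rw [g1]
        funext i
        show Ψ₀ (toTorus a) i.succ = Ψ (toTorus a) i.succ
        rw [prod_apply hl₀, prod_apply hl]
        simp [hu₀]
      · show (((F₁ z).2 + u (F₁ z).2 : ℝ) : UnitAddCircle) = Ψ (toTorus a) 0
        rw [prod_apply hl, hn, huint]
        simp only [Fin.cons_zero]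
        rw [show a 0 + (n : ℝ) + u (a 0) = a 0 + u (a 0) + n by ring, coe_add_int]
    have mF₂ : ∀ z t, 0 < t → (F₂ z).2 < (F₂ (z.1, z.2 + t)).2 := fun z t ht =>
      hΦ (mF₁ z t ht)
    obtain ⟨S₂, w₂, hS₂T, hS₂f, hS₂G, hw₂0, hS₂d, hS₂w, hw₂⟩ := exists_fiberSys hr T₁
      (conjSplit (f.trans Ψ)) (isDiffeo_conjSplit _ hf₂.diffeo) (hbase _ Ψ hl) F₂ hF₂c lF₂ mF₂
    have hit : ∀ (x : Torus d) (n : ℕ) (y : ℝ), S₂.it x n y =
        itr (fun y => y + u y) (fun i => S₁.G (T₁^[i] x)) n y := by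
      intro x n y
      induction n with
      | zero => rfl
      | succ n ih =>
        rw [S₂.it_succ, ih, hS₂G, hS₂T]
        show _ = (fun y => y + u y) (S₁.G (T₁^[n] x) _)
        rw [hS₁G]
    refine step_of_simple hr (f.trans Ψ) hf₂ T₁ (hbase _ Ψ hl) hc' hh' S₂ w₂ hS₂T hS₂f hw₂0
      hS₂d hS₂w hw₂ ?_
    intro x n hn hx
    obtain ⟨j, m, hj, ⟨z, hz⟩, hs⟩ := hcy ⟨x, n, hn, hx⟩
    have hit' : S₂.it x (N ⟨x, n, hn, hx⟩ * j) =
        itr (fun y => y + u y) (fun i => S₁.G (T₁^[i] x)) (N ⟨x, n, hn, hx⟩ * j) :=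
      funext (hit x _)
    refine ⟨N ⟨x, n, hn, hx⟩ * j, m, Nat.mul_pos (hN _).1 hj, ?_, ⟨z, ?_⟩, ?_⟩
    · rw [Function.iterate_mul]
      exact Function.iterate_fixed (hN ⟨x, n, hn, hx⟩).2 j
    · rw [hit']; exact hz
    · intro y hy
      rw [hit'] at hy ⊢
      exact hs y hy

theorem isFlagDiffeo_refl (d : ℕ) : IsFlagDiffeo ⊤ (Homeomorph.refl (Torus d)) := by
  refine ⟨⟨⟨id, contDiff_id, fun z => rfl⟩, id, contDiff_id, fun z => rfl⟩,
    fun k x y => Iff.rfl, id, continuous_id, fun z => rfl, ?_⟩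
  intro z k t ht
  simp [ht]

theorem rigid_id {d k : ℕ} {η : ℝ} (hη : 0 < η) {T : Torus d ≃ₜ Torus d} {Q : Set (Torus d)}
    (h : Rigid k η T Q) (K : Set (Torus d)) (hK : IsClosed K) (hne : K.Nonempty)
    (hm : MapsTo T K K) : (K ∩ Q).Nonempty := by
  refine h (Homeomorph.refl _) (fun _ => 0) (isFlagDiffeo_refl d) ⟨contDiff_const, ?_⟩ ?_
    (fun q _ => rfl) K hK hne hm
  · intro j _ z
    have : iteratedFDeriv ℝ j (fun _ : Fin d → ℝ => (0 : Fin d → ℝ)) = 0 := by
      exact iteratedFDeriv_zero_fun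
    rw [this]
    simpa using hη
  · intro z
    simp

theorem periodic_of_finite {X : Type*} {f : X → X} (hf : Function.Injective f) {Q : Set X}
    (hQ : Q.Finite) (hfQ : f '' Q = Q) {q : X} (hq : q ∈ Q) : ∃ n, 0 < n ∧ f^[n] q = q := by
  have hmem : ∀ n : ℕ, f^[n] q ∈ Q := by
    intro n
    induction n with
    | zero => exact hq
    | succ n ih =>
      rw [Function.iterate_succ_apply', ← hfQ]
      exact ⟨_, ih, rfl⟩
  have hni : ¬ Function.Injective fun n : ℕ => f^[n] q := by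
    intro hinj
    exact Set.infinite_of_injective_forall_mem hinj hmem hQ
  obtain ⟨i, j, hij, hne⟩ := Function.not_injective_iff.1 hni
  rcases lt_or_gt_of_ne hne with h | h
  · refine ⟨j - i, by omega, ?_⟩
    refine (hf.iterate i) ?_
    rw [← Function.iterate_add_apply, Nat.add_sub_cancel' h.le]
    exact hij.symm
  · refine ⟨i - j, by omega, ?_⟩
    refine (hf.iterate j) ?_
    rw [← Function.iterate_add_apply, Nat.add_sub_cancel' h.le]
    exact hij

/-- Rigid pairs are hyperbolic. -/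
theorem rigid_main {r : ℕ∞} (hr : 1 ≤ r) : ∀ (d : ℕ) (f : Torus d ≃ₜ Torus d), IsFlagDiffeo r f →
    ∀ (Q : Set (Torus d)), Q.Finite → f '' Q = Q → ∀ (k : ℕ) (η : ℝ), 0 < η → Rigid k η f Q →
      Conv f ∧ IsHyperbolic toTorus f (Per f) := by
  intro d
  induction d with
  | zero => intro f _ Q _ _ k η _ _; exact ⟨conv_zero f, hyp_zero f _⟩
  | succ d ih =>
    intro f hf Q hQ hfQ k η hη hR
    obtain ⟨T, hTf, hT⟩ := exists_base f hf
    set Q' : Set (Torus d) := (fun (x : Torus (d + 1)) (i : Fin d) => x i.succ) '' Q with hQ'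
    have hTQ : T '' Q' = Q' := by
      ext y
      constructor
      · rintro ⟨_, ⟨x, hx, rfl⟩, rfl⟩
        exact ⟨f x, by rw [← hfQ]; exact ⟨x, hx, rfl⟩, hT x⟩
      · rintro ⟨x, hx, rfl⟩
        rw [← hfQ] at hx
        obtain ⟨x', hx', rfl⟩ := hx
        exact ⟨_, ⟨x', hx', rfl⟩, (hT x').symm⟩
    obtain ⟨hTc, hTh⟩ := ih T hTf Q' (hQ.image _) hTQ k η hη (rigid_base f T hT Q hR)
    obtain ⟨F, hF, lF, mF⟩ := exists_lift f hf
    have hF' : ContDiff ℝ 1 F := hF.of_le (by exact_mod_cast hr)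
    have hT' : ∀ z, (conjSplit f z).1 = T z.1 := by
      intro z
      obtain ⟨x, rfl⟩ := (split d).surjective z
      rw [conjSplit_apply]
      exact hT x
    obtain ⟨S, w, hST, hSf, hSG, hw0, hSd, hSw, hw⟩ := exists_fiberSys hr T (conjSplit f)
      (isDiffeo_conjSplit f hf.diffeo) hT' F hF' lF mF
    have hSp : ∀ x y, 0 < deriv (S.G x) y := fun x y => by rw [hSw]; exact hw0 _
    obtain ⟨hPer, hsimple⟩ := rigid_simple (r := r) f T Q hQ hfQ k η hη hR S hST hSf hSd hSp
    refine step_of_simple hr f hf T hT' hTc hTh S w hST hSf hw0 hSd hSw hw ?_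
    intro x n hn hx
    -- a periodic point above `x`
    set K : Set (Torus (d + 1)) := {z | ∃ i < n, (split d z).1 = T^[i] x} with hK
    have hKc : IsClosed K := by
      have : K = ⋃ i ∈ Finset.range n, {z | (split d z).1 = T^[i] x} := by
        ext z; simp [hK]
      rw [this]
      refine isClosed_biUnion_finset fun i _ => ?_
      exact isClosed_eq (continuous_fst.comp (split d).continuous) continuous_const
    have hKn : K.Nonempty := by
      refine ⟨(split d).symm (x, 0), 0, hn, ?_⟩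
      simp
    have hKm : MapsTo f K K := by
      rintro z ⟨i, hi, hz⟩
      have h1 : (split d (f z)).1 = T (split d z).1 := by
        rw [← hT' (split d z), conjSplit_apply]
      by_cases h : i + 1 < n
      · refine ⟨i + 1, h, ?_⟩
        rw [h1, hz, Function.iterate_succ_apply']
      · refine ⟨0, hn, ?_⟩
        have hin : i.succ = n := by omega
        rw [h1, hz, ← Function.iterate_succ_apply' T, hin, hx]
        rfl
    obtain ⟨q, ⟨i, hi, hqi⟩, hqQ⟩ := rigid_id hη hR K hKc hKn hKm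
    obtain ⟨N, hN, hqN⟩ := periodic_of_finite f.injective hQ hfQ hqQ
    have hiter : ∀ (l : ℕ) (z : Torus (d + 1)), (split d (f^[l] z)) = S.map^[l] (split d z) := by
      intro l z
      induction l with
      | zero => rfl
      | succ l ihl =>
        rw [Function.iterate_succ_apply', Function.iterate_succ_apply', ← ihl, hSf,
          conjSplit_apply]
    have hfst : ∀ (l : ℕ) (z : Torus d × Circ), (S.map^[l] z).1 = T^[l] z.1 := by
      intro l z
      induction l with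
      | zero => rfl
      | succ l ihl =>
        rw [Function.iterate_succ_apply', Function.iterate_succ_apply', ← ihl, ← hST]
        rfl
    set q' := f^[n - i] q with hq'
    have hq'1 : (split d q').1 = x := by
      rw [hq', hiter, hfst, hqi, ← Function.iterate_add_apply, Nat.sub_add_cancel hi.le, hx]
    have hq'N : f^[N] q' = q' := by
      rw [hq', ← Function.iterate_add_apply, Nat.add_comm N (n - i), Function.iterate_add_apply,
        hqN]
    obtain ⟨y, hy⟩ := QuotientAddGroup.mk_surjective (split d q').2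
    have hsq : split d q' = (x, ((y : ℝ) : UnitAddCircle)) := Prod.ext hq'1 hy.symm
    have h2 : S.map^[N] (x, ((y : ℝ) : UnitAddCircle)) = (x, ((y : ℝ) : UnitAddCircle)) := by
      rw [← hsq, ← hiter, hq'N]
    have h3 := S.map_iterate x N y
    rw [h2] at h3
    have hTN : T^[N] x = x := by
      rw [← hST]; exact (congrArg Prod.fst h3).symm
    obtain ⟨m, hm⟩ := exists_int (congrArg Prod.snd h3).symm
    exact ⟨N, m, hN, hTN, ⟨y, hm⟩, fun z hz => hsimple x N m z hN hTN hz⟩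

/-- Density in the space of `C^r` diffeomorphisms. -/
theorem density_close {d : ℕ} {r : ℕ∞} (hr : 1 ≤ r) (f : Torus d ≃ₜ Torus d)
    (hf : IsFlagDiffeo r f) (k : ℕ) (hk : (k : ℕ∞) ≤ r) (ε : ℝ) (hε : 0 < ε) :
    ∃ g : Torus d ≃ₜ Torus d, IsFlagDiffeo r g ∧ CkClose toTorus k ε f g ∧ Conv g ∧
      IsHyperbolic toTorus g (Per g) := by
  obtain ⟨η, hη, hcl⟩ := close_of_small f hf.diffeo k hk ε hε
  obtain ⟨u, Ψ, hu, hl, hΨ, h1, h2⟩ := density hr d f hf k η hη
  exact ⟨f.trans Ψ, hf.comp (hΨ.of_le le_top),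
    hcl (fun z i => u i (z i)) Ψ (smallMap_pi k η hη u hu) hl, h1, h2⟩

/-- The `C^r` stability theorem for flag preserving diffeomorphisms. -/
theorem stable_hyperbolic {d : ℕ} {r : ℕ∞} (hr : 1 ≤ r) (f : Torus d ≃ₜ Torus d)
    (hf : IsFlagDiffeo r f) (hs : OmegaStable toTorus r f) :
    Conv f ∧ IsHyperbolic toTorus f (Per f) := by
  obtain ⟨h1, h2, k, η, hη, hR⟩ := rigid_top f hf hs (fun k hk ε hε => by
    obtain ⟨g, hg, hc, hC, hH⟩ := density_close hr f hf k hk ε hε
    exact ⟨g, hg.diffeo, hc, (all_of_conv g hC hH).2.2.2.2.2⟩)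
  exact rigid_main hr d f hf (Omega f) h1 h2 k η hη hR

end Pool.Agent.H637R2.TD
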