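import Pool.Agent.H637R2.TD.Main
import Pool.Agent.H637R2.TD.Stubs2
import Pool.Agent.H728R2.OS.Struct

/-!
# Stability of flag preserving diffeomorphisms; genericity of the density of periodic points
-/

open Set Filter Topology MeasureTheory

namespace Pool.Agent.H637R2.TD

open Pool.Agent.H728R2.OS

/-- `f` is `Ω`-stable in the space of flag preserving `C^r` diffeomorphisms: every flag preserving
`C^r` diffeomorphism near `f` is conjugate to `f` on the nonwandering sets. -/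
def FlagStable {d : ℕ} (r : ℕ∞) (f : Torus d ≃ₜ Torus d) : Prop :=
  ∃ k : ℕ, (k : ℕ∞) ≤ r ∧ ∃ ε : ℝ, 0 < ε ∧
    ∀ g : Torus d ≃ₜ Torus d, IsFlagDiffeo r g → CkClose toTorus k ε f g → OmegaConj f g

theorem flagStable_of_omegaStable {d : ℕ} {r : ℕ∞} {f : Torus d ≃ₜ Torus d}
    (h : OmegaStable toTorus r f) : FlagStable r f := by
  obtain ⟨k, hk, ε, hε, h⟩ := h
  exact ⟨k, hk, ε, hε, fun g hg hc => h g hg.diffeo hc⟩

private theorem omega_comm {X : Type*} [TopologicalSpace X] (f g : X ≃ₜ X)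
    (hfg : ∀ x, f (g x) = g (f x)) {x : X} (hx : x ∈ Omega f) : g x ∈ Omega f := by
  intro U hU
  have hU' : g ⁻¹' U ∈ 𝓝 x := g.continuous.continuousAt.preimage_mem_nhds hU
  obtain ⟨n, hn, y, ⟨u, hu, huy⟩, hy⟩ := hx _ hU'
  have hcomm : ∀ z, f^[n] (g z) = g (f^[n] z) := fun z =>
    (Function.Commute.iterate_left (show Function.Commute f g from hfg) n) z
  refine ⟨n, hn, g y, ⟨g u, hu, ?_⟩, hy⟩
  rw [hcomm, huy]

private theorem image_omega {X : Type*} [TopologicalSpace X] (f : X ≃ₜ X) :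
    f '' Omega f = Omega f := by
  ext y
  constructor
  · rintro ⟨x, hx, rfl⟩
    exact omega_comm f f (fun _ => rfl) hx
  · intro hy
    exact ⟨f.symm y, omega_comm f f.symm (by simp) hy, f.apply_symm_apply y⟩

private theorem meet_omega {X : Type*} [TopologicalSpace X] [CompactSpace X] (g : X ≃ₜ X)
    (K : Set X) (hK : IsClosed K) (hne : K.Nonempty) (hm : ∀ x ∈ K, g x ∈ K) :
    (K ∩ Omega g).Nonempty := by
  obtain ⟨x, hx⟩ := hne
  have hit : ∀ n : ℕ, g^[n] x ∈ K := by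
    intro n
    induction n with
    | zero => exact hx
    | succ n ih =>
      rw [Function.iterate_succ_apply']
      exact hm _ ih
  obtain ⟨y, hyK, hy⟩ := hK.isCompact.exists_mapClusterPt_of_frequently
    (l := atTop) (f := fun n : ℕ => g^[n] x) (Eventually.frequently (Eventually.of_forall hit))
  refine ⟨y, hyK, fun U hU => ?_⟩
  have hfr := mapClusterPt_iff_frequently.1 hy U hU
  obtain ⟨m, hmU⟩ := hfr.exists
  obtain ⟨n, hnm, hnU⟩ := (frequently_atTop'.1 hfr) m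
  refine ⟨n - m, Nat.sub_pos_of_lt hnm, g^[n] x, ⟨g^[m] x, hmU, ?_⟩, hnU⟩
  rw [← Function.iterate_add_apply, Nat.sub_add_cancel hnm.le]

/-- `Ω`-stability among flag preserving diffeomorphisms implies rigidity. -/
theorem rigid_of_flagStable {d : ℕ} {r : ℕ∞} (hr : 1 ≤ r) (f : Torus d ≃ₜ Torus d)
    (hf : IsFlagDiffeo r f) (hs : FlagStable r f) :
    (Omega f).Finite ∧ f '' Omega f = Omega f ∧
      ∃ (k : ℕ) (η : ℝ), 0 < η ∧ Rigid k η f (Omega f) := by
  obtain ⟨k, hk, ε, hε, H⟩ := hs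
  have hfin : (Omega f).Finite := by
    obtain ⟨g, hg1, hg2, hg3, hg4⟩ := density_close hr f hf k hk ε hε
    obtain ⟨h, -⟩ := H g hg1 hg2
    have : Finite (Omega g) := (all_of_conv g hg3 hg4).2.2.2.2.2.to_subtype
    have : Finite (Omega f) := Finite.of_equiv _ h.toEquiv.symm
    exact Set.toFinite _
  have himg : f '' Omega f = Omega f := image_omega f
  obtain ⟨η, hη, hclose⟩ := close_of_small f hf.diffeo k hk ε hε
  refine ⟨hfin, himg, k, η, hη, ?_⟩
  intro Θ U hΘ hU hlift hfix K hKc hKn hKm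
  have hg : IsFlagDiffeo r (f.trans Θ) := hf.comp (hΘ.of_le le_top)
  obtain ⟨h, -⟩ := H (f.trans Θ) hg (hclose U Θ hU hlift)
  have hgm : ∀ x ∈ Omega f, (f.trans Θ) x = f x := by
    intro x hx
    have h1 : f x ∈ Omega f := himg ▸ mem_image_of_mem f hx
    exact hfix _ h1
  have himg' : (f.trans Θ) '' Omega f = Omega f := by
    rw [← himg]
    conv_rhs => rw [himg]
    rw [himg]
    exact (image_congr hgm).trans himg
  have hsub : Omega f ⊆ Omega (f.trans Θ) := by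
    intro x hx
    obtain ⟨n, hn, hxn⟩ := periodic_of_finite (f.trans Θ).injective hfin himg' hx
    exact per_subset_omega _ ⟨n, hn, hxn⟩
  have : Finite (Omega f) := hfin.to_subtype
  have hfin' : Finite (Omega (f.trans Θ)) := Finite.of_equiv _ h.toEquiv
  have hcard : (Omega (f.trans Θ)).ncard = (Omega f).ncard :=
    (Nat.card_congr h.toEquiv).symm
  have heq : Omega f = Omega (f.trans Θ) :=
    Set.eq_of_subset_of_ncard_le hsub hcard.le (Set.toFinite _)
  rw [heq]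
  exact meet_omega (f.trans Θ) K hKc hKn fun x hx => hKm hx

/-- `Ω`-stable flag preserving diffeomorphisms satisfy Axiom A without cycles. -/
theorem flagStable_main {d : ℕ} {r : ℕ∞} (hr : 1 ≤ r) (f : Torus d ≃ₜ Torus d)
    (hf : IsFlagDiffeo r f) (hs : FlagStable r f) :
    ChainHyp toTorus f ∧ AxiomA toTorus f ∧ NoCycle f ∧ (Omega f).Finite := by
  obtain ⟨h1, h2, k, η, hη, hR⟩ := rigid_of_flagStable hr f hf hs
  obtain ⟨hC, hH⟩ := rigid_main hr d f hf (Omega f) h1 h2 k η hη hR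
  obtain ⟨-, a, b, c, -, -⟩ := all_of_conv f hC hH
  exact ⟨a, b, c, h1⟩

theorem ckClose_mono {d k k' : ℕ} {ε ε' : ℝ} {f g : Torus d → Torus d}
    (h : CkClose toTorus k ε f g) (hk : k' ≤ k) (hε : ε ≤ ε') : CkClose toTorus k' ε' f g := by
  obtain ⟨F, G, hF, hG, lF, lG, h⟩ := h
  exact ⟨F, G, hF.of_le (by exact_mod_cast hk), hG.of_le (by exact_mod_cast hk), lF, lG,
    fun j hj z => (h j (hj.trans hk) z).trans_le hε⟩

/-- The diffeomorphisms all of whose `C^1` close flag preserving neighbours have chain recurrent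
sets in the `1/(n+1)`-neighbourhood of the set of periodic points. -/
def goodSet (d : ℕ) (r : ℕ∞) (n : ℕ) : Set (Torus d ≃ₜ Torus d) :=
  {f | ∃ η : ℝ, 0 < η ∧ ∀ g : Torus d ≃ₜ Torus d, IsFlagDiffeo r g → CkClose toTorus 1 η f g →
    ∀ x ∈ ChainRec g, ∃ p ∈ Per g, dist x p < 1 / ((n : ℝ) + 1)}

theorem goodSet_open {d : ℕ} {r : ℕ∞} {n : ℕ} {f : Torus d ≃ₜ Torus d}
    (h : f ∈ goodSet d r n) : ∃ ε : ℝ, 0 < ε ∧ ∀ g : Torus d ≃ₜ Torus d,
      CkClose toTorus 1 ε f g → g ∈ goodSet d r n := by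
  obtain ⟨η, hη, h⟩ := h
  refine ⟨η / 2, half_pos hη, fun g hg => ⟨η / 2, half_pos hη, fun g' hg' hc => ?_⟩⟩
  refine h g' hg' ?_
  have := ckClose_trans hg hc
  rwa [add_halves] at this

theorem ckClose_refl {d k : ℕ} {ε : ℝ} (hε : 0 < ε) {r : ℕ∞} {f : Torus d ≃ₜ Torus d}
    (hf : IsDiffeo toTorus r f) (hk : (k : ℕ∞) ≤ r) : CkClose toTorus k ε f f := by
  obtain ⟨⟨F, hF, lF⟩, -⟩ := hf
  have hF' : ContDiff ℝ k F := hF.of_le (by exact_mod_cast hk)
  refine ⟨F, F, hF', hF', lF, lF, fun j _ z => ?_⟩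
  have : (fun w => F w - F w) = fun _ => 0 := by funext w; simp
  rw [this]
  have h0 : iteratedFDeriv ℝ j (fun _ : Fin d → ℝ => (0 : Fin d → ℝ)) = 0 := iteratedFDeriv_zero_fun
  rw [h0]
  simpa using hε

theorem goodSet_dense {d : ℕ} {r : ℕ∞} (hr : 1 ≤ r) (n : ℕ) (f : Torus d ≃ₜ Torus d)
    (hf : IsFlagDiffeo r f) (k : ℕ) (hk : (k : ℕ∞) ≤ r) (ε : ℝ) (hε : 0 < ε) :
    ∃ g ∈ goodSet d r n, IsFlagDiffeo r g ∧ CkClose toTorus k ε f g := by
  obtain ⟨g, hg, hc, hC, hH⟩ := density_close hr f hf k hk ε hε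
  refine ⟨g, ?_, hg, hc⟩
  obtain ⟨-, -, -, -, -, -⟩ := all_of_conv g hC hH
  have hCR : ChainRec g ⊆ Per g := chainRec_of_conv g hC
  have hfin : (Per g).Finite := hC.1
  set δ : ℝ := 1 / ((n : ℝ) + 1) / 2 with hδ
  have hδ0 : 0 < δ := by positivity
  obtain ⟨e, he, husc⟩ := chainRec_usc g (⋃ p ∈ Per g, Metric.ball p δ)
    (isOpen_biUnion fun p _ => Metric.isOpen_ball)
    (fun x hx => mem_biUnion (hCR hx) (Metric.mem_ball_self hδ0))
  have hg1 : IsDiffeo toTorus 1 g := by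
    obtain ⟨⟨F, hF, lF⟩, G, hG, lG⟩ := hg.diffeo
    exact ⟨⟨F, hF.of_le (by exact_mod_cast hr), lF⟩, G, hG.of_le (by exact_mod_cast hr), lG⟩
  haveI : Fintype (Per g) := hfin.fintype
  have hpers : ∀ p : Per g, ∃ η : ℝ, 0 < η ∧ ∀ h : Torus d ≃ₜ Torus d,
      CkClose toTorus 1 η g h → ∃ q ∈ Per h, dist (p : Torus d) q < δ := by
    rintro ⟨p, N, hN, hp⟩
    obtain ⟨η, hη, h⟩ := persist g hg1 hH p N hN hp δ hδ0
    exact ⟨η, hη, fun h' hc' => by
      obtain ⟨q, hq, hpq⟩ := h h' hc'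
      exact ⟨q, ⟨N, hN, hq⟩, hpq⟩⟩
  choose η hη hpers using hpers
  obtain ⟨η₀, hη₀, hmin⟩ : ∃ η₀ : ℝ, 0 < η₀ ∧ ∀ p, η₀ ≤ η p := by
    rcases isEmpty_or_nonempty (Per g) with h | h
    · exact ⟨1, one_pos, fun p => (h.false p).elim⟩
    · refine ⟨Finset.univ.inf' Finset.univ_nonempty η, ?_, fun p =>
        Finset.inf'_le _ (Finset.mem_univ p)⟩
      rw [Finset.lt_inf'_iff]
      exact fun p _ => hη p
  refine ⟨min e η₀, lt_min he hη₀, ?_⟩
  intro h hh hch x hx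
  have h1 := husc h (fun y => (dist_of_ckClose hch y).trans_le (min_le_left _ _)) hx
  rw [mem_iUnion₂] at h1
  obtain ⟨p, hp, hxp⟩ := h1
  obtain ⟨q, hq, hpq⟩ := hpers ⟨p, hp⟩ h
    (ckClose_mono hch le_rfl ((min_le_right _ _).trans (hmin _)))
  refine ⟨q, hq, ?_⟩
  calc dist x q ≤ dist x p + dist p q := dist_triangle _ _ _
    _ < δ + δ := add_lt_add hxp hpq
    _ = 1 / ((n : ℝ) + 1) := add_halves _

theorem closure_of_goodSet {d : ℕ} {r : ℕ∞} (hr : 1 ≤ r) (f : Torus d ≃ₜ Torus d)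
    (hf : IsFlagDiffeo r f) (h : ∀ n, f ∈ goodSet d r n) :
    ChainRec f = closure (Per f) ∧ Omega f = closure (Per f) := by
  have h1 : ChainRec f ⊆ closure (Per f) := by
    intro x hx
    rw [Metric.mem_closure_iff]
    intro ε hε
    obtain ⟨n, hn⟩ := exists_nat_one_div_lt hε
    obtain ⟨η, hη, hn'⟩ := h n
    obtain ⟨p, hp, hxp⟩ := hn' f hf (ckClose_refl hη hf.diffeo (by exact_mod_cast hr)) x hx
    exact ⟨p, hp, hxp.trans hn⟩
  have h2 : closure (Per f) ⊆ Omega f :=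
    closure_minimal (per_subset_omega f) (isClosed_omega f)
  have h3 := omega_subset_chainRec f
  exact ⟨Subset.antisymm h1 (h2.trans h3), Subset.antisymm (h3.trans h1) h2⟩

end Pool.Agent.H637R2.TD
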