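import Pool.Agent.H637R2.TD.S.CONV1
import Pool.Agent.H637R2.TD.S.PERF
import Pool.Agent.H637R2.TD.S.SKEW
import Pool.Agent.H637R2.TD.S.CRP
import Pool.Agent.H637R2.TD.S.SARD
import Pool.Agent.H637R2.TD.S.PIGEON
import Pool.Agent.H637R2.TD.S.SIGN
import Pool.Agent.H637R2.TD.S.ROB
import Pool.Agent.H637R2.TD.S.CYC
import Pool.Agent.H637R2.TD.S.SPLIT
import Pool.Agent.H637R2.TD.S.BASE
import Pool.Agent.H637R2.TD.S.FIB
import Pool.Agent.H637R2.TD.S.PROD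
import Pool.Agent.H637R2.TD.S.CLOSE
import Pool.Agent.H637R2.TD.S.HYPS
import Pool.Agent.H637R2.TD.S.ATTR
import Pool.Agent.H637R2.TD.S.RIGB
import Pool.Agent.H637R2.TD.S.RIGT
import Pool.Agent.H637R2.TD.S.PSI
import Pool.Agent.H637R2.TD.S.NEWP
import Pool.Agent.H637R2.TD.S.RIGS
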